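import Pool.Agent.H373R2.NB.Weyl
import Pool.Agent.R544.EM.Block

/-!
The blocks of digits of the values of a real polynomial with irrational leading coefficient, at good
places: the exponential sums over them are small by the inverse theorem for Weyl sums.
-/

set_option autoImplicit false

namespace Pool.Agent.U59.PM

open Finset Polynomial
open Pool.Agent.H373R2.NB (Ph IW IW_all)
open Pool.Agent.Helper602.MK (ee)
open Pool.Agent.Helper602.MK.N_J5b (ee_add ee_zero ee_conj norm_ee ee_int ee_nat_mul ee_eq ee_add_int)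
open Pool.Agent.R544.EM (word word_eq exists_good)

lemma Ph_smul (d : ℕ) : ∀ (α : ℝ) (φ : ℕ → ℝ) (t : ℝ), Ph d α φ → Ph d (t * α) (fun n => t * φ n) := by
  induction d with
  | zero =>
    intro α φ t h n
    show t * φ n = t * α
    rw [h n]
  | succ d ih =>
    intro α φ t h k
    have h1 := ih _ _ t (h k)
    have e1 : t * ((k : ℝ) * α) = k * (t * α) := by ring
    have e2 : (fun n => t * (φ (n + k) - φ n)) = fun n => (fun n => t * φ n) (n + k) - (fun n => t * φ n) n := by
      funext n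
      simp only
      ring
    rw [e1, e2] at h1
    exact h1

lemma Ph_real (d : ℕ) : ∀ f : ℝ[X], f.natDegree ≤ d →
    Ph d ((d.factorial : ℝ) * f.coeff d) (fun n => f.eval (n : ℝ)) := by
  induction d with
  | zero =>
    intro f hf n
    have h1 : f = C (f.coeff 0) := eq_C_of_natDegree_le_zero hf
    have h2 : f.eval (n : ℝ) = f.coeff 0 := by
      conv_lhs => rw [h1]
      rw [eval_C]
    show f.eval (n : ℝ) = _
    rw [h2]; simp
  | succ d ih =>
    intro f hf h
    set g : ℝ[X] := taylor (h : ℝ) f - f with hg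
    have hcoef : ∀ j, d ≤ j → (taylor (h : ℝ) f).coeff j = f.coeff j + (if j = d then ((d : ℝ) + 1) * f.coeff (d + 1) * h else 0) := by
      intro j hj
      rw [taylor_coeff]
      have h1 : (hasseDeriv j f).natDegree < 2 := by
        have := natDegree_hasseDeriv_le f j
        omega
      rw [eval_eq_sum_range' h1, sum_range_succ, sum_range_succ, sum_range_zero, hasseDeriv_coeff, hasseDeriv_coeff]
      rcases eq_or_ne j d with h2 | h2
      · subst h2
        rw [if_pos rfl, zero_add, zero_add, Nat.choose_self, add_comm 1 j, Nat.choose_succ_self_right]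
        push_cast
        ring
      · rw [if_neg h2]
        have h3 : f.coeff (1 + j) = 0 := coeff_eq_zero_of_natDegree_lt (by omega)
        rw [h3, zero_add, zero_add, Nat.choose_self]
        push_cast
        ring
    have hgd : g.natDegree ≤ d := by
      rw [natDegree_le_iff_coeff_eq_zero]
      intro j hj
      rw [hg, coeff_sub, hcoef j (by omega), if_neg (by omega)]
      ring
    have hgc : g.coeff d = ((d : ℝ) + 1) * f.coeff (d + 1) * h := by
      rw [hg, coeff_sub, hcoef d le_rfl, if_pos rfl]; ring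
    have h1 := ih g hgd
    have h2 : (fun n : ℕ => g.eval (n : ℝ)) = fun n : ℕ => f.eval ((n + h : ℕ) : ℝ) - f.eval (n : ℝ) := by
      funext n
      rw [hg, eval_sub, taylor_eval]
      push_cast
      ring_nf
    have h3 : ((d.factorial : ℝ) * g.coeff d) = h * ((((d + 1).factorial : ℕ) : ℝ) * f.coeff (d + 1)) := by
      rw [hgc, Nat.factorial_succ]
      push_cast
      ring
    rw [h2, h3] at h1
    exact h1

/-- at a point near `0` the Dirichlet kernel is large -/
lemma kernel_large (J : ℕ) (β : ℝ) (hβ : (J : ℝ) * |β| ≤ 1 / 8) :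
    (7 / 10 : ℝ) * J ≤ ‖∑ j ∈ range J, ee (j * β)‖ := by
  have h1 : (∑ j ∈ range J, ee (j * β)).re ≤ ‖∑ j ∈ range J, ee (j * β)‖ := Complex.re_le_norm _
  refine le_trans ?_ h1
  rw [Complex.re_sum]
  have h2 : ∀ j ∈ range J, (7 / 10 : ℝ) ≤ (ee (j * β)).re := by
    intro j hj
    have hjJ : (j : ℝ) ≤ J := by exact_mod_cast (mem_range.1 hj).le
    rw [ee_eq, Complex.exp_ofReal_mul_I_re]
    have h3 : |2 * Real.pi * ((j : ℝ) * β)| ≤ Real.pi / 4 := by
      rw [abs_mul, abs_of_pos (by positivity : (0 : ℝ) < 2 * Real.pi), abs_mul, Nat.abs_cast]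
      have h4 : (j : ℝ) * |β| ≤ 1 / 8 := (mul_le_mul_of_nonneg_right hjJ (abs_nonneg _)).trans hβ
      nlinarith [Real.pi_pos]
    have h5 : Real.cos (Real.pi / 4) ≤ Real.cos (2 * Real.pi * ((j : ℝ) * β)) := by
      rw [← Real.cos_abs (2 * Real.pi * ((j : ℝ) * β))]
      apply Real.cos_le_cos_of_nonneg_of_le_pi (abs_nonneg _) (by linarith [Real.pi_pos]) h3
    have h6 : (7 / 10 : ℝ) ≤ Real.cos (Real.pi / 4) := by
      rw [Real.cos_pi_div_four]
      have : (7 / 5 : ℝ) ≤ √2 := by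
        apply Real.le_sqrt_of_sq_le
        norm_num
      linarith
    exact h6.trans h5
  calc (7 / 10 : ℝ) * J = ∑ j ∈ range J, (7 / 10 : ℝ) := by rw [sum_const, card_range, nsmul_eq_mul]; ring
    _ ≤ _ := sum_le_sum h2

/-- the number of the points near a given one, modulo one -/
lemma cell (M J : ℕ) (hJ : 1 ≤ J) (θ : ℕ → ℝ) (x₀ W : ℝ) (S : Finset ℕ) (hS : S ⊆ range M)
    (hW : ∀ h : ℕ, 1 ≤ h → h < J → ‖∑ m ∈ range M, ee (h * θ m)‖ ≤ W) (hW0 : 0 ≤ W)
    (hnear : ∀ m ∈ S, ∃ p : ℤ, (J : ℝ) * |θ m - x₀ - p| ≤ 1 / 8) :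
    (#S : ℝ) ≤ 2.05 * (M / J + W) := by
  have hJ0 : (0 : ℝ) < J := by exact_mod_cast hJ
  set T : ℕ → ℂ := fun m => ∑ j ∈ range J, ee (j * (θ m - x₀)) with hT
  -- lower bound
  have hlow : ∀ m ∈ S, (49 / 100 : ℝ) * J ^ 2 ≤ ‖T m‖ ^ 2 := by
    intro m hm
    obtain ⟨p, hp⟩ := hnear m hm
    have e1 : T m = ∑ j ∈ range J, ee (j * (θ m - x₀ - p)) := by
      rw [hT]
      apply sum_congr rfl
      intro j _
      have e2 : (j : ℝ) * (θ m - x₀) = j * (θ m - x₀ - p) + ((j * p : ℤ) : ℝ) := by push_cast; ring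
      rw [e2, ee_add_int]
    have h1 := kernel_large J _ hp
    rw [← e1] at h1
    have h0 : (0 : ℝ) ≤ (7 / 10 : ℝ) * J := by positivity
    calc (49 / 100 : ℝ) * J ^ 2 = ((7 / 10 : ℝ) * J) ^ 2 := by ring
      _ ≤ ‖T m‖ ^ 2 := pow_le_pow_left₀ h0 h1 2
  -- upper bound
  have hconj : ∀ h : ℤ, h ≠ 0 → |h| < J → ‖∑ m ∈ range M, ee (h * θ m)‖ ≤ W := by
    intro h h0 hlt
    rcases lt_or_gt_of_ne h0 with hneg | hpos
    · obtain ⟨a, ha⟩ := Int.eq_ofNat_of_zero_le (show 0 ≤ -h by omega)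
      have ha' : h = -(a : ℤ) := by omega
      have e1 : ∑ m ∈ range M, ee (h * θ m) = (starRingEnd ℂ) (∑ m ∈ range M, ee (a * θ m)) := by
        rw [map_sum]
        apply sum_congr rfl
        intro m _
        rw [ee_conj, ha']
        congr 1
        push_cast
        ring
      rw [e1, Complex.norm_conj]
      apply hW a (by omega)
      rw [ha', abs_neg] at hlt
      have : |(a : ℤ)| = a := abs_of_nonneg (by omega)
      omega
    · obtain ⟨a, ha⟩ := Int.eq_ofNat_of_zero_le hpos.le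
      rw [ha]
      have := hW a (by omega) (by
        rw [ha] at hlt
        have : |(a : ℤ)| = a := abs_of_nonneg (by omega)
        omega)
      exact_mod_cast this
  have hup : ∑ m ∈ range M, ‖T m‖ ^ 2 ≤ J * M + J ^ 2 * W := by
    have e1 : ((∑ m ∈ range M, ‖T m‖ ^ 2 : ℝ) : ℂ) =
        ∑ j ∈ range J, ∑ j' ∈ range J, ee (-(((j : ℤ) - j' : ℤ) : ℝ) * x₀) * ∑ m ∈ range M, ee (((j : ℤ) - j' : ℤ) * θ m) := by
      push_cast
      have e2 : ∀ m ∈ range M, ((‖T m‖ : ℂ)) ^ 2 = ∑ j ∈ range J, ∑ j' ∈ range J,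
          ee (-(((j : ℤ) - j' : ℤ) : ℝ) * x₀) * ee (((j : ℤ) - j' : ℤ) * θ m) := by
        intro m _
        rw [← Complex.mul_conj', hT]
        simp only
        rw [map_sum, sum_mul_sum]
        apply sum_congr rfl
        intro j _
        apply sum_congr rfl
        intro j' _
        rw [ee_conj, ← ee_add, ← ee_add]
        congr 1
        push_cast
        ring
      rw [sum_congr rfl e2, sum_comm]
      apply sum_congr rfl
      intro j _
      rw [sum_comm]
      apply sum_congr rfl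
      intro j' _
      rw [mul_sum]
      push_cast
      rfl
    have h0 : 0 ≤ ∑ m ∈ range M, ‖T m‖ ^ 2 := sum_nonneg fun _ _ => by positivity
    have h1 : ∑ m ∈ range M, ‖T m‖ ^ 2 = ‖((∑ m ∈ range M, ‖T m‖ ^ 2 : ℝ) : ℂ)‖ := by
      rw [Complex.norm_real, Real.norm_of_nonneg h0]
    rw [h1, e1]
    calc ‖∑ j ∈ range J, ∑ j' ∈ range J, ee (-(((j : ℤ) - j' : ℤ) : ℝ) * x₀) * ∑ m ∈ range M, ee (((j : ℤ) - j' : ℤ) * θ m)‖
        ≤ ∑ j ∈ range J, ∑ j' ∈ range J, ‖∑ m ∈ range M, ee (((j : ℤ) - j' : ℤ) * θ m)‖ := by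
          refine (norm_sum_le _ _).trans (sum_le_sum fun j _ => (norm_sum_le _ _).trans (sum_le_sum fun j' _ => ?_))
          rw [norm_mul, norm_ee, one_mul]
      _ ≤ ∑ j ∈ range J, ∑ j' ∈ range J, ((if j' = j then (M : ℝ) else 0) + W) := by
          refine sum_le_sum fun j hj => sum_le_sum fun j' hj' => ?_
          rw [mem_range] at hj hj'
          split_ifs with hjj
          · subst hjj
            refine (norm_sum_le _ _).trans ?_
            have : ∑ m ∈ range M, ‖ee ((((j' : ℤ) - j' : ℤ) : ℝ) * θ m)‖ = M := by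
              simp [norm_ee]
            rw [this]
            linarith
          · rw [zero_add]
            apply hconj _ (by omega)
            rw [abs_lt]
            omega
      _ = J * M + J ^ 2 * W := by
          have : ∀ j ∈ range J, ∑ j' ∈ range J, ((if j' = j then (M : ℝ) else 0) + W) = M + J * W := by
            intro j hj
            rw [sum_add_distrib, sum_ite_eq', if_pos hj, sum_const, card_range, nsmul_eq_mul]
          rw [sum_congr rfl this, sum_const, card_range, nsmul_eq_mul]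
          ring
  have h3 : (#S : ℝ) * ((49 / 100 : ℝ) * J ^ 2) ≤ J * M + J ^ 2 * W := by
    calc (#S : ℝ) * ((49 / 100 : ℝ) * J ^ 2) = ∑ m ∈ S, (49 / 100 : ℝ) * J ^ 2 := by
          rw [sum_const, nsmul_eq_mul]
      _ ≤ ∑ m ∈ S, ‖T m‖ ^ 2 := sum_le_sum hlow
      _ ≤ ∑ m ∈ range M, ‖T m‖ ^ 2 := sum_le_sum_of_subset_of_nonneg hS fun _ _ _ => by positivity
      _ ≤ _ := hup
  have h4 : (49 / 100 : ℝ) * (#S : ℝ) ≤ M / J + W := by
    rw [div_add' _ _ _ hJ0.ne', le_div_iff₀ hJ0]
    have h5 : (49 / 100 : ℝ) * (#S : ℝ) * J * J ≤ (M + W * J) * J := by nlinarith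
    exact le_of_mul_le_mul_right h5 hJ0
  have h6 : 0 ≤ M / J + W := by positivity
  nlinarith

/-- **Blocks of the values of polynomials.** -/
theorem blocks_poly (d : ℕ) (hd : 1 ≤ d) : ∃ c e : ℕ, 1 ≤ c ∧ 1 ≤ e ∧ ∀ b : ℕ, 2 ≤ b →
    ∀ f : ℝ[X], f.natDegree = d → Irrational f.leadingCoeff → ∀ n M : ℕ,
      c * (b + 1) * b ^ c * (b ^ n) ^ e < M ^ d → ∀ q0 : ℕ, ∃ q, q0 ≤ q ∧ ∀ v : ℤ,
        (({m : ℕ | m < M ∧ word b n (f.eval (m : ℝ)) q = v}.ncard : ℕ) : ℝ) ≤ 17 * M / b ^ n := by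
  classical
  obtain ⟨c, mm, hc, hI⟩ := IW_all d hd
  refine ⟨c, 2 * mm + 1, hc, by omega, ?_⟩
  intro b hb f hfd hirr n M hM q0
  set B : ℕ := b ^ n with hB
  have hb0 : (0 : ℝ) < b := by positivity
  have hB1 : 1 ≤ B := Nat.one_le_pow _ _ (by omega)
  have hB1r : (1 : ℝ) ≤ B := by exact_mod_cast hB1
  have hB0 : (0 : ℝ) < B := by linarith
  have hM1 : 1 ≤ M := by
    rcases Nat.eq_zero_or_pos M with h | h
    · rw [h, zero_pow (by omega)] at hM
      omega
    · exact h
  have hM0 : (0 : ℝ) < M := by exact_mod_cast hM1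
  set α : ℝ := (d.factorial : ℝ) * f.coeff d with hα
  have hαirr : Irrational α := by
    have h1 : f.coeff d = f.leadingCoeff := by rw [← hfd]; rfl
    rw [hα, h1]
    exact hirr.natCast_mul (Nat.factorial_ne_zero d)
  set n' : ℕ := n * (mm + 1) + c with hn'
  obtain ⟨q, hq, hgood⟩ := exists_good α hαirr b hb n' q0
  refine ⟨q, hq, fun v => ?_⟩
  have hBr : ((B : ℕ) : ℝ) = (b : ℝ) ^ n := by rw [hB]; push_cast; rfl
  have hbn' : (b : ℝ) ^ n' = (b : ℝ) ^ c * (B : ℝ) ^ (mm + 1) := by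
    rw [hn', pow_add, pow_mul, ← hBr]; ring
  have hcb : (c : ℝ) ≤ (b : ℝ) ^ c := by
    have : c < b ^ c := Nat.lt_pow_self (by omega)
    exact_mod_cast this.le
  set S : Finset ℕ := (range M).filter fun m => word b n (f.eval (m : ℝ)) q = v with hS
  have hSet : {m : ℕ | m < M ∧ word b n (f.eval (m : ℝ)) q = v} = (S : Set ℕ) := by
    ext m
    rw [hS, Finset.mem_coe, mem_filter, mem_range]
    rfl
  rw [hSet, Set.ncard_coe_finset, ← hBr]
  by_cases hB4 : B < 4
  · have h1 : (#S : ℝ) ≤ M := by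
      have : #S ≤ M := (card_filter_le _ _).trans (by rw [card_range])
      exact_mod_cast this
    have h2 : (B : ℝ) ≤ 4 := by exact_mod_cast hB4.le
    rw [le_div_iff₀ hB0]
    nlinarith
  · push Not at hB4
    set J : ℕ := B / 4 with hJ
    have hJ1 : 1 ≤ J := (Nat.one_le_div_iff (by norm_num)).2 hB4
    have hJ7 : B ≤ 7 * J := by omega
    have hJ4 : 4 * J ≤ B := by omega
    have hJ0 : (0 : ℝ) < J := by exact_mod_cast hJ1
    have hW : ∀ h : ℕ, 1 ≤ h → h < J → ‖∑ m ∈ range M, ee (h * ((b : ℝ) ^ q * f.eval (m : ℝ)))‖ ≤ M / B := by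
      intro h h1 hJh
      by_contra hcon
      push Not at hcon
      rw [div_lt_iff₀ hB0] at hcon
      have hph := Ph_smul d _ _ ((h : ℝ) * (b : ℝ) ^ q) (Ph_real d f hfd.le)
      have hsum : ∑ m ∈ range M, ee (h * ((b : ℝ) ^ q * f.eval (m : ℝ))) =
          ∑ m ∈ range M, ee ((fun m : ℕ => (h : ℝ) * (b : ℝ) ^ q * f.eval (m : ℝ)) m) := by
        apply sum_congr rfl
        intro m _
        simp only
        congr 1
        ring
      rw [hsum] at hcon
      obtain ⟨t, ht1, ht2, a, ha⟩ := hI M B _ _ hM1 hB1r hph (by rw [mul_comm]; exact hcon.le)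
      rw [← hα] at ha
      have hr0 : 0 < t * h := Nat.mul_pos (by omega) (by omega)
      have hhB : (h : ℝ) < B := by
        have : h < B := by omega
        exact_mod_cast this
      have ht0 : (0 : ℝ) < t := by exact_mod_cast ht1
      have hrlt : t * h < b ^ n' := by
        have h2 : ((t * h : ℕ) : ℝ) < ((b ^ n' : ℕ) : ℝ) := by
          push_cast
          rw [hbn']
          calc (t : ℝ) * h < t * B := mul_lt_mul_of_pos_left hhB ht0
            _ ≤ (c * (B : ℝ) ^ mm) * B := mul_le_mul_of_nonneg_right ht2 hB0.le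
            _ = c * (B : ℝ) ^ (mm + 1) := by ring
            _ ≤ _ := mul_le_mul_of_nonneg_right hcb (by positivity)
        exact_mod_cast h2
      have h3 := hgood (t * h) hr0 hrlt a
      have e3 : ((t * h : ℕ) : ℝ) * ((b : ℝ) ^ q * α) - a = t * ((h : ℝ) * (b : ℝ) ^ q * α) - a := by
        push_cast; ring
      rw [e3] at h3
      have h4 := h3.trans ha
      rw [hbn', div_le_div_iff₀ (by positivity) (by positivity)] at h4
      have h5 : ((c * (b + 1) * b ^ c * B ^ (2 * mm + 1) : ℕ) : ℝ) < ((M ^ d : ℕ) : ℝ) := by exact_mod_cast hM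
      push_cast at h5
      have h6 : (c : ℝ) * (B : ℝ) ^ mm * (((b : ℝ) + 1) * ((b : ℝ) ^ c * (B : ℝ) ^ (mm + 1))) =
          c * (b + 1) * b ^ c * B ^ (2 * mm + 1) := by
        rw [show 2 * mm + 1 = mm + (mm + 1) by ring, pow_add]
        ring
      rw [h6] at h4
      linarith
    have hcell := cell M J hJ1 (fun m => (b : ℝ) ^ q * f.eval (m : ℝ)) (((v : ℝ) + 1 / 2) / B) (M / B) S
      (filter_subset _ _) hW (by positivity) (by
        intro m hm
        rw [hS, mem_filter] at hm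
        have hw := hm.2
        rw [word_eq b hb, mul_comm (f.eval (m : ℝ)), Int.floor_eq_iff, ← hBr] at hw
        refine ⟨⌊(b : ℝ) ^ q * f.eval (m : ℝ)⌋, ?_⟩
        have e1 : (b : ℝ) ^ q * f.eval (m : ℝ) - (((v : ℝ) + 1 / 2) / B) - ⌊(b : ℝ) ^ q * f.eval (m : ℝ)⌋ =
            (Int.fract ((b : ℝ) ^ q * f.eval (m : ℝ)) * B - (v + 1 / 2)) / B := by
          rw [Int.fract]; field_simp; ring
        rw [e1, abs_div, abs_of_pos hB0]
        have h2 : |Int.fract ((b : ℝ) ^ q * f.eval (m : ℝ)) * B - (v + 1 / 2)| ≤ 1 / 2 := by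
          rw [abs_le]; constructor <;> linarith [hw.1, hw.2]
        have hJ4r : 4 * (J : ℝ) ≤ B := by exact_mod_cast hJ4
        rw [← mul_div_assoc, div_le_iff₀ hB0]
        nlinarith)
    refine hcell.trans ?_
    have h8 : (M : ℝ) / J ≤ 7 * (M / B) := by
      rw [div_le_iff₀ hJ0]
      have hJ7r : (B : ℝ) ≤ 7 * J := by exact_mod_cast hJ7
      have : 7 * ((M : ℝ) / B) * J = M * ((7 * J) / B) := by ring
      rw [this]
      have h9 : 1 ≤ (7 * (J : ℝ)) / B := by rw [le_div_iff₀ hB0]; linarith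
      nlinarith
    have h10 : 0 ≤ (M : ℝ) / B := by positivity
    have e4 : 17 * (M : ℝ) / B = 17 * (M / B) := by ring
    rw [e4]
    nlinarith

end Pool.Agent.U59.PM
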