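import Pool.Agent.U59.PM.Words
import Pool.Agent.U59.PM.Phase

/-!
The number of the `m < M` for which few words of `k` digits stand infinitely often in `F(m)`, `F` a
real polynomial with irrational leading coefficient.
-/

set_option autoImplicit false

namespace Pool.Agent.U59.PM

open Finset Polynomial
open Pool.Agent.R544.EM (word often)

theorem count (d : ℕ) (hd : 1 ≤ d) : ∃ c : ℝ, 0 < c ∧ c ≤ 1 ∧ ∀ b k : ℕ, 2 ≤ b → 1 ≤ k → ∃ C : ℝ, 0 ≤ C ∧
    ∀ F : ℝ[X], F.natDegree = d → Irrational F.leadingCoeff → ∀ P : ℕ, 1 ≤ P → P ≤ b ^ k →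
      ∀ M : ℕ, 1 ≤ M → (({m : ℕ | m < M ∧ (often b k (F.eval (m : ℝ))).ncard ≤ P}.ncard : ℕ) : ℝ) ≤
        C * (M : ℝ) ^ (1 - c * (1 - Real.log P / (k * Real.log b))) := by
  classical
  obtain ⟨c, e, hc, he, H⟩ := blocks_poly d hd
  have he0 : (0 : ℝ) < e := by exact_mod_cast he
  have he1 : (1 : ℝ) ≤ e := by exact_mod_cast he
  refine ⟨1 / e, by positivity, by rw [div_le_one he0]; exact he1, ?_⟩
  intro b k hb hk
  set C0 : ℕ := c * (b + 1) * b ^ c with hC0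
  have hC01 : 1 ≤ C0 := by rw [hC0]; exact Nat.mul_pos (Nat.mul_pos (by omega) (by omega)) (by positivity)
  have hC0r : (1 : ℝ) ≤ C0 := by exact_mod_cast hC01
  have hb0 : (0 : ℝ) < b := by positivity
  have hbk1 : (1 : ℝ) ≤ (b : ℝ) ^ k := one_le_pow₀ (by exact_mod_cast (by omega : 1 ≤ b))
  refine ⟨17 * 2 ^ (b ^ k) * (C0 * (b : ℝ) ^ k), by positivity, ?_⟩
  intro F hFd hirr P hP1 hP M hM
  have hMr : (1 : ℝ) ≤ M := by exact_mod_cast hM
  have hM0 : (0 : ℝ) < M := by linarith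
  have hlogb : 0 < Real.log b := Real.log_pos (by exact_mod_cast (by omega : 1 < b))
  have hkr : (0 : ℝ) < k := by exact_mod_cast hk
  have hkb : 0 < (k : ℝ) * Real.log b := by positivity
  set s : ℝ := Real.log P / (k * Real.log b) with hs
  have hP1r : (1 : ℝ) ≤ P := by exact_mod_cast hP1
  have hP0 : (0 : ℝ) < P := by linarith
  have hs0 : 0 ≤ s := by
    rw [hs]
    exact div_nonneg (Real.log_nonneg hP1r) hkb.le
  have hs1 : s ≤ 1 := by
    rw [hs, div_le_one hkb, ← Real.log_pow]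
    apply Real.log_le_log hP0
    exact_mod_cast hP
  have hPs : (P : ℝ) = ((b : ℝ) ^ k) ^ s := by
    rw [← Real.rpow_natCast, ← Real.rpow_mul hb0.le, Real.rpow_def_of_pos hb0, hs]
    have : Real.log b * (k * (Real.log P / (k * Real.log b))) = Real.log P := by
      field_simp
    rw [this, Real.exp_log hP0]
  have h1s : 0 ≤ 1 - s := by linarith
  have hexp : 0 ≤ 1 - 1 / (e : ℝ) * (1 - s) := by
    have : 1 / (e : ℝ) ≤ 1 := by rw [div_le_one he0]; exact he1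
    nlinarith
  set E : Set ℕ := {m : ℕ | m < M ∧ (often b k (F.eval (m : ℝ))).ncard ≤ P} with hE
  have htriv : ((E.ncard : ℕ) : ℝ) ≤ M := by
    have h1 : E ⊆ ((range M : Finset ℕ) : Set ℕ) := by
      intro m hm
      rw [Finset.mem_coe, mem_range]
      exact hm.1
    have h2 := Set.ncard_le_ncard h1 (Finset.finite_toSet _)
    rw [Set.ncard_coe_finset, card_range] at h2
    exact_mod_cast h2
  have h2k : (1 : ℝ) ≤ 2 ^ (b ^ k) := one_le_pow₀ (by norm_num)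
  by_cases hbig : C0 * (b ^ (k * 0)) ^ e < M ^ d
  · -- the maximal `l`
    have hex : ∃ l : ℕ, ¬ C0 * (b ^ (k * l)) ^ e < M ^ d := by
      refine ⟨M ^ d, ?_⟩
      push Not
      calc M ^ d ≤ b ^ (M ^ d) := (Nat.lt_pow_self (by omega)).le
        _ ≤ b ^ (k * M ^ d) := Nat.pow_le_pow_right (by omega) (Nat.le_mul_of_pos_left _ hk)
        _ ≤ (b ^ (k * M ^ d)) ^ e := Nat.le_self_pow (by omega) _
        _ ≤ C0 * (b ^ (k * M ^ d)) ^ e := Nat.le_mul_of_pos_left _ hC01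
    obtain ⟨l, hl1, hl2⟩ : ∃ l, C0 * (b ^ (k * l)) ^ e < M ^ d ∧ M ^ d ≤ C0 * (b ^ (k * (l + 1))) ^ e := by
      have h0 : Nat.find hex ≠ 0 := by
        intro h0
        have h1 := Nat.find_spec hex
        rw [h0] at h1
        exact h1 hbig
      obtain ⟨l, hl⟩ := Nat.exists_eq_succ_of_ne_zero h0
      refine ⟨l, ?_, ?_⟩
      · have h2 := Nat.find_min hex (m := l) (by omega)
        push Not at h2
        exact h2
      · have h1 := Nat.find_spec hex
        rw [hl] at h1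
        push Not at h1
        exact h1
    set K : ℕ := ⌊17 * (M : ℝ) / (b : ℝ) ^ (k * l)⌋₊ with hK
    have hfew := few_words b hb (fun m => F.eval (m : ℝ)) M k l P K hP (by
      intro q0
      obtain ⟨q, hq, hv⟩ := H b hb F hFd hirr (k * l) M hl1 q0
      exact ⟨q, hq, fun v => Nat.le_floor (hv v)⟩)
    have hfew' : ((E.ncard : ℕ) : ℝ) ≤ K * (b ^ k).choose P * P ^ l := by exact_mod_cast hfew
    have hKle : (K : ℝ) ≤ 17 * (M : ℝ) / (b : ℝ) ^ (k * l) := Nat.floor_le (by positivity)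
    have hch : (((b ^ k).choose P : ℕ) : ℝ) ≤ 2 ^ (b ^ k) := by
      exact_mod_cast Nat.choose_le_two_pow _ _
    set G : ℝ := (b : ℝ) ^ (k * l) with hG
    have hG1 : 1 ≤ G := one_le_pow₀ (by exact_mod_cast (by omega : 1 ≤ b))
    have hG0 : 0 < G := by linarith
    -- `M ^ (1/e) ≤ C0 * b ^ k * G`
    have hMG : (M : ℝ) ^ (1 / (e : ℝ)) ≤ C0 * (b : ℝ) ^ k * G := by
      have h1 : (M : ℝ) ≤ (C0 * (b : ℝ) ^ k * G) ^ e := by
        have h2 : ((M ^ d : ℕ) : ℝ) ≤ ((C0 * (b ^ (k * (l + 1))) ^ e : ℕ) : ℝ) := by exact_mod_cast hl2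
        push_cast at h2
        calc (M : ℝ) ≤ (M : ℝ) ^ d := le_self_pow₀ hMr (by omega)
          _ ≤ C0 * ((b : ℝ) ^ (k * (l + 1))) ^ e := h2
          _ ≤ (C0 : ℝ) ^ e * ((b : ℝ) ^ (k * (l + 1))) ^ e :=
              mul_le_mul_of_nonneg_right (le_self_pow₀ hC0r (by omega)) (by positivity)
          _ = _ := by
              rw [← mul_pow, hG, mul_assoc, ← pow_add]
              congr 3
              ring
      have h3 := Real.rpow_le_rpow hM0.le h1 (by positivity : (0 : ℝ) ≤ 1 / (e : ℝ))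
      rw [one_div, Real.pow_rpow_inv_natCast (by positivity) (by omega)] at h3
      rw [one_div]
      exact h3
    -- `P ^ l = G ^ s`
    have hPl : (P : ℝ) ^ l = G ^ s := by
      rw [hPs, hG, ← Real.rpow_natCast, ← Real.rpow_mul (by positivity), mul_comm s, Real.rpow_mul (by positivity),
        Real.rpow_natCast, ← pow_mul]
    have hG1s : 0 < G ^ (1 - s) := Real.rpow_pos_of_pos hG0 _
    have hGG : G ^ s * G ^ (1 - s) = G := by
      rw [← Real.rpow_add hG0, add_sub_cancel, Real.rpow_one]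
    have hMs : (M : ℝ) ^ (1 / (e : ℝ) * (1 - s)) ≤ C0 * (b : ℝ) ^ k * G ^ (1 - s) := by
      rw [Real.rpow_mul hM0.le]
      refine (Real.rpow_le_rpow (by positivity) hMG h1s).trans ?_
      rw [Real.mul_rpow (by positivity) hG0.le]
      refine mul_le_mul_of_nonneg_right ?_ hG1s.le
      have h1 : (1 : ℝ) ≤ C0 * (b : ℝ) ^ k := one_le_mul_of_one_le_of_one_le hC0r hbk1
      calc (C0 * (b : ℝ) ^ k) ^ (1 - s) ≤ (C0 * (b : ℝ) ^ k) ^ (1 : ℝ) :=
            Real.rpow_le_rpow_of_exponent_le h1 (by linarith)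
        _ = _ := Real.rpow_one _
    have hMM : (M : ℝ) = (M : ℝ) ^ (1 - 1 / (e : ℝ) * (1 - s)) * (M : ℝ) ^ (1 / (e : ℝ) * (1 - s)) := by
      rw [← Real.rpow_add hM0, sub_add_cancel, Real.rpow_one]
    have hkey : (M : ℝ) / G * G ^ s ≤ C0 * (b : ℝ) ^ k * (M : ℝ) ^ (1 - 1 / (e : ℝ) * (1 - s)) := by
      have h1 : (M : ℝ) ≤ (C0 * (b : ℝ) ^ k * (M : ℝ) ^ (1 - 1 / (e : ℝ) * (1 - s))) * G ^ (1 - s) := by
        calc (M : ℝ) = (M : ℝ) ^ (1 - 1 / (e : ℝ) * (1 - s)) * (M : ℝ) ^ (1 / (e : ℝ) * (1 - s)) := hMM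
          _ ≤ (M : ℝ) ^ (1 - 1 / (e : ℝ) * (1 - s)) * (C0 * (b : ℝ) ^ k * G ^ (1 - s)) :=
              mul_le_mul_of_nonneg_left hMs (by positivity)
          _ = _ := by ring
      have h2 : (M : ℝ) / G * G ^ s = M / G ^ (1 - s) := by
        rw [div_mul_eq_mul_div, div_eq_div_iff hG0.ne' hG1s.ne', mul_assoc, hGG]
      rw [h2, div_le_iff₀ hG1s]
      exact h1
    calc ((E.ncard : ℕ) : ℝ) ≤ K * (b ^ k).choose P * P ^ l := hfew'
      _ ≤ (17 * (M : ℝ) / G) * 2 ^ (b ^ k) * G ^ s := by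
          rw [hPl]
          refine mul_le_mul_of_nonneg_right (mul_le_mul hKle hch (by positivity) (by positivity)) (by positivity)
      _ = 17 * 2 ^ (b ^ k) * ((M : ℝ) / G * G ^ s) := by ring
      _ ≤ 17 * 2 ^ (b ^ k) * (C0 * (b : ℝ) ^ k * (M : ℝ) ^ (1 - 1 / (e : ℝ) * (1 - s))) :=
          mul_le_mul_of_nonneg_left hkey (by positivity)
      _ = _ := by ring
  · push Not at hbig
    rw [mul_zero, pow_zero, one_pow, mul_one] at hbig
    have h1 : (M : ℝ) ≤ C0 := by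
      have h2 : ((M ^ d : ℕ) : ℝ) ≤ ((C0 : ℕ) : ℝ) := by exact_mod_cast hbig
      push_cast at h2
      exact (le_self_pow₀ hMr (by omega)).trans h2
    have h2 : (1 : ℝ) ≤ (M : ℝ) ^ (1 - 1 / (e : ℝ) * (1 - s)) := Real.one_le_rpow hMr hexp
    calc ((E.ncard : ℕ) : ℝ) ≤ M := htriv
      _ ≤ C0 := h1
      _ = 1 * (C0 * 1) := by ring
      _ ≤ 17 * 2 ^ (b ^ k) * (C0 * (b : ℝ) ^ k) := by
          apply mul_le_mul (by linarith) (mul_le_mul_of_nonneg_left hbk1 (by positivity)) (by positivity) (by positivity)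
      _ ≤ 17 * 2 ^ (b ^ k) * (C0 * (b : ℝ) ^ k) * (M : ℝ) ^ (1 - 1 / (e : ℝ) * (1 - s)) :=
          le_mul_of_one_le_right (by positivity) h2

end Pool.Agent.U59.PM
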