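import Pool.Agent.U59.PM.Count

/-!
Cells visited infinitely often by the orbits of the values of polynomials.
-/

set_option autoImplicit false

namespace Pool.Agent.U59.PM

open Finset Polynomial
open Pool.Agent.R544.EM (word often word_eq often_sub)

/-- the cells of length `g ^ (-k)` visited infinitely often -/
def cells (g k : ℕ) (y : ℝ) : Set ℕ := {v : ℕ | {n : ℕ | (v : ℝ) / g ^ k ≤ Int.fract (g ^ n * y) ∧
  Int.fract (g ^ n * y) < (v + 1) / g ^ k}.Infinite}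

/-- every tail of the orbit is `ε`-dense -/
def EDense (ε : ℝ) (g : ℕ) (y : ℝ) : Prop := ∀ t : ℝ, 0 ≤ t → t ≤ 1 → ∀ n0 : ℕ, ∃ n, n0 ≤ n ∧
  |Int.fract (g ^ n * y) - t| < ε

lemma cells_iff (g : ℕ) (hg : 2 ≤ g) (k : ℕ) (y : ℝ) (v : ℕ) : v ∈ cells g k y ↔ (v : ℤ) ∈ often g k y := by
  have hg0 : (0 : ℝ) < (g : ℝ) ^ k := by positivity
  have h1 : ∀ n : ℕ, ((v : ℝ) / g ^ k ≤ Int.fract (g ^ n * y) ∧ Int.fract (g ^ n * y) < (v + 1) / g ^ k) ↔
      word g k y n = (v : ℤ) := by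
    intro n
    rw [word_eq g hg, Int.floor_eq_iff, div_le_iff₀ hg0, lt_div_iff₀ hg0, mul_comm y]
    push_cast
    rfl
  unfold cells often
  rw [Set.mem_ofPred_eq, Set.mem_ofPred_eq]
  simp only [h1]

lemma cells_ncard (g : ℕ) (hg : 2 ≤ g) (k : ℕ) (y : ℝ) : (cells g k y).ncard = (often g k y).ncard := by
  have h1 : often g k y = (fun v : ℕ => (v : ℤ)) '' cells g k y := by
    ext v
    rw [Set.mem_image]
    constructor
    · intro hv
      have h2 := often_sub g hg k y hv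
      rw [Finset.mem_coe, Finset.mem_Ico] at h2
      obtain ⟨a, rfl⟩ := Int.eq_ofNat_of_zero_le h2.1
      exact ⟨a, (cells_iff g hg k y a).2 hv, rfl⟩
    · rintro ⟨a, ha, rfl⟩
      exact (cells_iff g hg k y a).1 ha
  rw [h1, Set.ncard_image_of_injective _ Nat.cast_injective]

lemma cells_lt (g : ℕ) (hg : 2 ≤ g) (k : ℕ) (y : ℝ) (v : ℕ) (hv : v ∈ cells g k y) : v < g ^ k := by
  obtain ⟨n, hn⟩ := Set.Infinite.nonempty hv
  have hg0 : (0 : ℝ) < (g : ℝ) ^ k := by positivity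
  have h1 := hn.1.trans_lt (Int.fract_lt_one _)
  rw [div_lt_one hg0] at h1
  exact_mod_cast h1

lemma eDense_of (ε : ℝ) (g : ℕ) (hg : 2 ≤ g) (k : ℕ) (hk : 1 / (g : ℝ) ^ k < ε) (y : ℝ)
    (h : g ^ k ≤ (cells g k y).ncard) : EDense ε g y := by
  have hg0 : (0 : ℝ) < (g : ℝ) ^ k := by positivity
  have hgk : 1 ≤ g ^ k := Nat.one_le_pow _ _ (by omega)
  have hall : cells g k y = ((range (g ^ k) : Finset ℕ) : Set ℕ) := by
    apply Set.eq_of_subset_of_ncard_le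
    · intro v hv
      rw [Finset.mem_coe, mem_range]
      exact cells_lt g hg k y v hv
    · rw [Set.ncard_coe_finset, card_range]
      exact h
    · exact Finset.finite_toSet _
  intro t ht0 ht1 n0
  obtain ⟨v, hv, hv1, hv2⟩ : ∃ v : ℕ, v < g ^ k ∧ (v : ℝ) / g ^ k ≤ t ∧ t ≤ ((v : ℝ) + 1) / g ^ k := by
    rcases ht1.eq_or_lt with rfl | hlt
    · refine ⟨g ^ k - 1, by omega, ?_, ?_⟩
      · rw [div_le_one hg0]
        have : ((g ^ k - 1 : ℕ) : ℝ) ≤ ((g ^ k : ℕ) : ℝ) := by exact_mod_cast Nat.sub_le _ _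
        push_cast at this
        exact this
      · rw [le_div_iff₀ hg0, Nat.cast_sub hgk]
        push_cast
        linarith
    · refine ⟨⌊t * g ^ k⌋₊, ?_, ?_, ?_⟩
      · rw [Nat.floor_lt (by positivity)]
        push_cast
        nlinarith
      · rw [div_le_iff₀ hg0]
        exact Nat.floor_le (by positivity)
      · rw [le_div_iff₀ hg0]
        exact (Nat.lt_floor_add_one _).le
  have hmem : v ∈ cells g k y := by
    rw [hall, Finset.mem_coe, mem_range]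
    exact hv
  obtain ⟨n, hn, hn0⟩ := Set.Infinite.exists_gt hmem n0
  refine ⟨n, hn0.le, ?_⟩
  obtain ⟨h1, h2⟩ := hn
  have h3 : ((v : ℝ) + 1) / g ^ k = v / g ^ k + 1 / g ^ k := by ring
  rw [h3] at h2 hv2
  rw [abs_lt]
  constructor <;> linarith

/-- **(1)** the number of the `m < M` with few cells -/
theorem few_cells (d : ℕ) (hd : 1 ≤ d) : ∃ c : ℝ, 0 < c ∧ ∀ A : Finset ℕ, (∀ g ∈ A, 2 ≤ g) → ∀ k : ℕ, 1 ≤ k →
    ∃ C : ℝ, 0 ≤ C ∧ ∀ F : ℝ[X], F.natDegree = d → Irrational F.leadingCoeff → ∀ s : ℝ, 0 ≤ s → s ≤ 1 → ∀ M : ℕ, 1 ≤ M →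
      (({m : ℕ | m < M ∧ ∃ g ∈ A, ((cells g k (F.eval (m : ℝ))).ncard : ℝ) ≤ (g : ℝ) ^ (s * k)}.ncard : ℕ) : ℝ) ≤
        C * (M : ℝ) ^ (1 - c * (1 - s)) := by
  classical
  obtain ⟨c, hc, -, H⟩ := count d hd
  refine ⟨c, hc, ?_⟩
  intro A hA k hk
  have hch : ∀ g : ℕ, ∃ C : ℝ, 0 ≤ C ∧ (2 ≤ g → ∀ F : ℝ[X], F.natDegree = d → Irrational F.leadingCoeff →
      ∀ P : ℕ, 1 ≤ P → P ≤ g ^ k →
      ∀ M : ℕ, 1 ≤ M → (({m : ℕ | m < M ∧ (often g k (F.eval (m : ℝ))).ncard ≤ P}.ncard : ℕ) : ℝ) ≤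
        C * (M : ℝ) ^ (1 - c * (1 - Real.log P / (k * Real.log g)))) := by
    intro g
    by_cases hg : 2 ≤ g
    · obtain ⟨C, h1, h2⟩ := H g k hg hk
      exact ⟨C, h1, fun _ => h2⟩
    · exact ⟨0, le_rfl, fun h => absurd h hg⟩
  choose Cg hCg0 hCg using hch
  refine ⟨∑ g ∈ A, Cg g, sum_nonneg fun g _ => hCg0 g, ?_⟩
  intro F hF hirr s hs0 hs1 M hM
  have hMr : (1 : ℝ) ≤ M := by exact_mod_cast hM
  have hsub : {m : ℕ | m < M ∧ ∃ g ∈ A, ((cells g k (F.eval (m : ℝ))).ncard : ℝ) ≤ (g : ℝ) ^ (s * k)} ⊆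
      ⋃ g ∈ A, {m : ℕ | m < M ∧ (often g k (F.eval (m : ℝ))).ncard ≤ ⌊(g : ℝ) ^ (s * k)⌋₊} := by
    rintro m ⟨hm, g, hg, h1⟩
    rw [Set.mem_iUnion₂]
    refine ⟨g, hg, hm, ?_⟩
    rw [cells_ncard g (hA g hg)] at h1
    exact Nat.le_floor h1
  have hfin : ∀ g : ℕ, {m : ℕ | m < M ∧ (often g k (F.eval (m : ℝ))).ncard ≤ ⌊(g : ℝ) ^ (s * k)⌋₊}.Finite := fun g =>
    (Set.finite_lt_nat M).subset fun m hm => hm.1
  have h1 := (Set.ncard_le_ncard hsub (Set.Finite.biUnion A.finite_toSet fun g _ => hfin g)).trans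
    (Finset.set_ncard_biUnion_le _ _)
  have h2 : (({m : ℕ | m < M ∧ ∃ g ∈ A, ((cells g k (F.eval (m : ℝ))).ncard : ℝ) ≤ (g : ℝ) ^ (s * k)}.ncard : ℕ) : ℝ) ≤
      ∑ g ∈ A, (({m : ℕ | m < M ∧ (often g k (F.eval (m : ℝ))).ncard ≤ ⌊(g : ℝ) ^ (s * k)⌋₊}.ncard : ℕ) : ℝ) := by
    exact_mod_cast h1
  refine h2.trans ?_
  rw [sum_mul]
  refine sum_le_sum fun g hg => ?_
  have hg2 := hA g hg
  have hg1 : (1 : ℝ) < g := by exact_mod_cast (by omega : 1 < g)
  have hlogg : 0 < Real.log g := Real.log_pos hg1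
  have hkr : (0 : ℝ) < k := by exact_mod_cast hk
  set P : ℕ := ⌊(g : ℝ) ^ (s * k)⌋₊ with hP
  have hP1 : 1 ≤ P := by
    rw [hP, Nat.one_le_floor_iff]
    exact Real.one_le_rpow hg1.le (by positivity)
  have hPle : (P : ℝ) ≤ (g : ℝ) ^ (s * k) := Nat.floor_le (by positivity)
  have hPk : P ≤ g ^ k := by
    have h3 : (g : ℝ) ^ (s * k) ≤ (g : ℝ) ^ ((k : ℕ) : ℝ) :=
      Real.rpow_le_rpow_of_exponent_le hg1.le (by nlinarith)
    rw [Real.rpow_natCast] at h3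
    exact_mod_cast hPle.trans h3
  refine (hCg g hg2 F hF hirr P hP1 hPk M hM).trans ?_
  refine mul_le_mul_of_nonneg_left (Real.rpow_le_rpow_of_exponent_le hMr ?_) (hCg0 g)
  have hexp : Real.log P / (k * Real.log (g : ℝ)) ≤ s := by
    rw [div_le_iff₀ (by positivity)]
    have h4 : Real.log P ≤ Real.log ((g : ℝ) ^ (s * k)) :=
      Real.log_le_log (by exact_mod_cast hP1) hPle
    rw [Real.log_rpow (by linarith)] at h4
    linarith
  nlinarith

/-- **(2)** the number of the `m < M` whose orbits are not `ε`-dense -/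
theorem not_dense (d : ℕ) (hd : 1 ≤ d) (A : Finset ℕ) (hA : ∀ g ∈ A, 2 ≤ g) (ε : ℝ) (hε : 0 < ε) :
    ∃ C σ : ℝ, 0 ≤ C ∧ 0 ≤ σ ∧ σ < 1 ∧ ∀ F : ℝ[X], F.natDegree = d → Irrational F.leadingCoeff → ∀ M : ℕ, 1 ≤ M →
      (({m : ℕ | m < M ∧ ∃ g ∈ A, ¬ EDense ε g (F.eval (m : ℝ))}.ncard : ℕ) : ℝ) ≤ C * (M : ℝ) ^ σ := by
  classical
  obtain ⟨c, hc, H⟩ := few_cells d hd
  obtain ⟨k, hk⟩ : ∃ k : ℕ, (1 / 2 : ℝ) ^ k < ε := exists_pow_lt_of_lt_one hε (by norm_num)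
  have hk' : (1 / 2 : ℝ) ^ (k + 1) < ε := by
    rw [pow_succ]
    have : (0 : ℝ) < (1 / 2) ^ k := by positivity
    linarith
  obtain ⟨C, hC0, hC⟩ := H A hA (k + 1) (by omega)
  -- the common `s`
  have hs : ∃ s : ℝ, 0 ≤ s ∧ s < 1 ∧ ∀ g ∈ A, ((g : ℝ) ^ (k + 1) - 1) ≤ (g : ℝ) ^ (s * ((k + 1 : ℕ) : ℝ)) := by
    clear hC H
    induction A using Finset.induction_on with
    | empty => exact ⟨0, le_rfl, by norm_num, fun g hg => absurd hg (Finset.notMem_empty g)⟩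
    | insert g A hgA ih =>
      obtain ⟨s, hs0, hs1, hsA⟩ := ih (fun g' hg' => hA g' (mem_insert_of_mem hg'))
      have hg2 := hA g (mem_insert_self g A)
      have hg1 : (1 : ℝ) < g := by exact_mod_cast (by omega : 1 < g)
      have hg0 : (0 : ℝ) < g := by linarith
      have hlogg : 0 < Real.log g := Real.log_pos hg1
      have hgk : (2 : ℝ) ≤ (g : ℝ) ^ (k + 1) := by
        have h1 : (g : ℝ) ≤ (g : ℝ) ^ (k + 1) := le_self_pow₀ hg1.le (by omega)
        have h2 : (2 : ℝ) ≤ g := by exact_mod_cast hg2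
        linarith
      set r : ℝ := Real.log ((g : ℝ) ^ (k + 1) - 1) / (((k + 1 : ℕ) : ℝ) * Real.log g) with hr
      have hkk : 0 < ((k + 1 : ℕ) : ℝ) * Real.log g := by positivity
      have hr1 : r < 1 := by
        rw [hr, div_lt_one hkk, ← Real.log_pow]
        exact Real.log_lt_log (by linarith) (by linarith)
      have hrg : (g : ℝ) ^ (r * ((k + 1 : ℕ) : ℝ)) = (g : ℝ) ^ (k + 1) - 1 := by
        rw [Real.rpow_def_of_pos hg0]
        have h5 : ((k + 1 : ℕ) : ℝ) ≠ 0 := by positivity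
        have h3 : Real.log g * (r * ((k + 1 : ℕ) : ℝ)) = Real.log ((g : ℝ) ^ (k + 1) - 1) := by
          rw [hr]
          field_simp
        rw [h3, Real.exp_log (by linarith)]
      refine ⟨max s r, hs0.trans (le_max_left _ _), max_lt hs1 hr1, fun g' hg' => ?_⟩
      rw [mem_insert] at hg'
      rcases hg' with rfl | hg'
      · rw [← hrg]
        exact Real.rpow_le_rpow_of_exponent_le hg1.le
          (mul_le_mul_of_nonneg_right (le_max_right _ _) (by positivity))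
      · have hg'1 : (1 : ℝ) ≤ g' := by
          have := hA g' (mem_insert_of_mem hg')
          exact_mod_cast (by omega : 1 ≤ g')
        exact (hsA g' hg').trans (Real.rpow_le_rpow_of_exponent_le hg'1
          (mul_le_mul_of_nonneg_right (le_max_left _ _) (by positivity)))
  obtain ⟨s, hs0, hs1, hsA⟩ := hs
  refine ⟨C, max 0 (1 - c * (1 - s)), hC0, le_max_left _ _, max_lt (by norm_num) (by nlinarith), ?_⟩
  intro F hF hirr M hM
  have hMr : (1 : ℝ) ≤ M := by exact_mod_cast hM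
  have h1 := hC F hF hirr s hs0 hs1.le M hM
  have hsub : {m : ℕ | m < M ∧ ∃ g ∈ A, ¬ EDense ε g (F.eval (m : ℝ))} ⊆
      {m : ℕ | m < M ∧ ∃ g ∈ A, ((cells g (k + 1) (F.eval (m : ℝ))).ncard : ℝ) ≤ (g : ℝ) ^ (s * ((k + 1 : ℕ) : ℝ))} := by
    rintro m ⟨hm, g, hg, hgd⟩
    refine ⟨hm, g, hg, le_trans ?_ (hsA g hg)⟩
    have hg2 := hA g hg
    have h2 : (cells g (k + 1) (F.eval (m : ℝ))).ncard < g ^ (k + 1) := by
      by_contra hcon
      push Not at hcon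
      apply hgd
      apply eDense_of ε g hg2 (k + 1) _ _ hcon
      refine lt_of_le_of_lt ?_ hk'
      rw [div_pow, one_pow]
      apply one_div_le_one_div_of_le (by positivity)
      apply pow_le_pow_left₀ (by norm_num)
      exact_mod_cast hg2
    have h3 : (((cells g (k + 1) (F.eval (m : ℝ))).ncard + 1 : ℕ) : ℝ) ≤ ((g ^ (k + 1) : ℕ) : ℝ) := by
      exact_mod_cast h2
    push_cast at h3
    linarith
  have hle := Set.ncard_le_ncard hsub ((Set.finite_lt_nat M).subset fun m hm => hm.1)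
  refine (Nat.cast_le.2 hle).trans (h1.trans ?_)
  exact mul_le_mul_of_nonneg_left (Real.rpow_le_rpow_of_exponent_le hMr (le_max_right _ _)) hC0

/-- a set with a power saving has a convergent sum of reciprocals -/
lemma summable_of_count (B : Set ℕ) (C σ : ℝ) (hC : 0 ≤ C) (hσ : σ < 1)
    (h : ∀ M : ℕ, 1 ≤ M → (({m : ℕ | m < M ∧ m ∈ B}.ncard : ℕ) : ℝ) ≤ C * (M : ℝ) ^ σ) :
    Summable (B.indicator fun m : ℕ => 1 / (m : ℝ)) := by
  classical
  set u : ℕ → ℝ := B.indicator fun m : ℕ => 1 / (m : ℝ) with hu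
  have hu0 : ∀ m, 0 ≤ u m := fun m => by
    rw [hu]
    exact Set.indicator_nonneg (fun _ _ => by positivity) m
  set r : ℝ := (2 : ℝ) ^ (σ - 1) with hr
  have hr0 : 0 < r := by positivity
  have hr1 : r < 1 := Real.rpow_lt_one_of_one_lt_of_neg (by norm_num) (by linarith)
  -- one dyadic interval
  have hdy : ∀ j : ℕ, ∑ m ∈ Ico (2 ^ j) (2 ^ (j + 1)), u m ≤ 2 * C * r ^ j := by
    intro j
    have h1 : ∑ m ∈ Ico (2 ^ j) (2 ^ (j + 1)), u m ≤ ∑ m ∈ (Ico (2 ^ j) (2 ^ (j + 1))).filter (· ∈ B), (1 / (2 : ℝ) ^ j) := by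
      rw [sum_filter]
      refine sum_le_sum fun m hm => ?_
      rw [mem_Ico] at hm
      by_cases hmB : m ∈ B
      · rw [if_pos hmB, hu, Set.indicator_of_mem hmB]
        apply one_div_le_one_div_of_le (by positivity)
        exact_mod_cast hm.1
      · rw [if_neg hmB, hu, Set.indicator_of_notMem hmB]
    refine h1.trans ?_
    rw [sum_const, nsmul_eq_mul]
    have h2 : (#((Ico (2 ^ j) (2 ^ (j + 1))).filter (· ∈ B)) : ℝ) ≤ C * ((2 ^ (j + 1) : ℕ) : ℝ) ^ σ := by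
      refine le_trans ?_ (h (2 ^ (j + 1)) (Nat.one_le_two_pow))
      rw [← Set.ncard_coe_finset]
      refine Nat.cast_le.2 (Set.ncard_le_ncard ?_ ((Set.finite_lt_nat _).subset fun m hm => hm.1))
      intro m hm
      rw [Finset.mem_coe, mem_filter, mem_Ico] at hm
      exact ⟨hm.1.2, hm.2⟩
    have h3 : ((2 ^ (j + 1) : ℕ) : ℝ) ^ σ * (1 / (2 : ℝ) ^ j) ≤ 2 * r ^ j := by
      push_cast
      rw [pow_succ (2 : ℝ), Real.mul_rpow (by positivity) (by norm_num), ← Real.rpow_natCast 2 j, ← Real.rpow_mul (by norm_num),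
        hr, ← Real.rpow_natCast ((2 : ℝ) ^ (σ - 1)) j, ← Real.rpow_mul (by norm_num)]
      have h4 : (2 : ℝ) ^ σ ≤ 2 := by
        calc (2 : ℝ) ^ σ ≤ (2 : ℝ) ^ (1 : ℝ) := Real.rpow_le_rpow_of_exponent_le (by norm_num) hσ.le
          _ = 2 := Real.rpow_one _
      have h5 : (2 : ℝ) ^ ((j : ℝ) * σ) * (1 / (2 : ℝ) ^ (j : ℝ)) = (2 : ℝ) ^ ((σ - 1) * j) := by
        rw [mul_one_div, ← Real.rpow_sub (by norm_num)]
        congr 1
        ring
      calc (2 : ℝ) ^ ((j : ℝ) * σ) * 2 ^ σ * (1 / 2 ^ (j : ℝ))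
          = (2 : ℝ) ^ σ * ((2 : ℝ) ^ ((j : ℝ) * σ) * (1 / (2 : ℝ) ^ (j : ℝ))) := by ring
        _ = (2 : ℝ) ^ σ * (2 : ℝ) ^ ((σ - 1) * j) := by rw [h5]
        _ ≤ 2 * (2 : ℝ) ^ ((σ - 1) * j) := mul_le_mul_of_nonneg_right h4 (by positivity)
    calc (#((Ico (2 ^ j) (2 ^ (j + 1))).filter (· ∈ B)) : ℝ) * (1 / 2 ^ j)
        ≤ (C * ((2 ^ (j + 1) : ℕ) : ℝ) ^ σ) * (1 / 2 ^ j) := mul_le_mul_of_nonneg_right h2 (by positivity)
      _ = C * (((2 ^ (j + 1) : ℕ) : ℝ) ^ σ * (1 / 2 ^ j)) := by ring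
      _ ≤ C * (2 * r ^ j) := mul_le_mul_of_nonneg_left h3 hC
      _ = 2 * C * r ^ j := by ring
  have hpart : ∀ J : ℕ, ∑ m ∈ range (2 ^ J), u m ≤ u 0 + 2 * C * ∑ j ∈ range J, r ^ j := by
    intro J
    induction J with
    | zero => simp
    | succ J ih =>
      rw [← sum_range_add_sum_Ico _ (Nat.pow_le_pow_right (by norm_num : 0 < 2) (Nat.le_succ J)), sum_range_succ]
      have := hdy J
      linarith
  have hgeo : ∀ J : ℕ, ∑ j ∈ range J, r ^ j ≤ (1 - r)⁻¹ := fun J => by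
    rw [← tsum_geometric_of_lt_one hr0.le hr1]
    exact (summable_geometric_of_lt_one hr0.le hr1).sum_le_tsum _ fun _ _ => by positivity
  apply summable_of_sum_range_le (c := u 0 + 2 * C * (1 - r)⁻¹) hu0
  intro n
  calc ∑ m ∈ range n, u m ≤ ∑ m ∈ range (2 ^ n), u m :=
        sum_le_sum_of_subset_of_nonneg (range_subset_range.2 (Nat.lt_two_pow_self).le) fun _ _ _ => hu0 _
    _ ≤ u 0 + 2 * C * ∑ j ∈ range n, r ^ j := hpart n
    _ ≤ _ := by
      have := mul_le_mul_of_nonneg_left (hgeo n) (by positivity : (0 : ℝ) ≤ 2 * C)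
      linarith

/-- **(3)** -/
theorem dense_in (A : Finset ℕ) (hA : ∀ g ∈ A, 2 ≤ g) (ε : ℝ) (hε : 0 < ε) (X : Finset ℝ) (hX : ∀ x ∈ X, Irrational x)
    (f : ℤ[X]) (hf : 1 ≤ f.natDegree) (S : Set ℕ) (hS : ¬ Summable (S.indicator fun m : ℕ => 1 / (m : ℝ))) :
    {m ∈ S | ∀ x ∈ X, ∀ g ∈ A, EDense ε g (f.eval (m : ℤ) * x)}.Infinite := by
  classical
  obtain ⟨C, σ, hC0, hσ0, hσ1, H⟩ := not_dense f.natDegree hf A hA ε hε
  -- the polynomials
  have hF : ∀ x : ℝ, Irrational x → (Polynomial.C x * f.map (Int.castRingHom ℝ)).natDegree = f.natDegree ∧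
      Irrational (Polynomial.C x * f.map (Int.castRingHom ℝ)).leadingCoeff ∧
      ∀ m : ℕ, (Polynomial.C x * f.map (Int.castRingHom ℝ)).eval (m : ℝ) = f.eval (m : ℤ) * x := by
    intro x hx
    have hx0 : x ≠ 0 := hx.ne_zero
    have hinj : Function.Injective (Int.castRingHom ℝ) := Int.cast_injective
    refine ⟨?_, ?_, ?_⟩
    · rw [natDegree_C_mul hx0, natDegree_map_eq_of_injective hinj]
    · rw [leadingCoeff_mul, leadingCoeff_C, leadingCoeff_map_of_injective hinj]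
      have h1 : f.leadingCoeff ≠ 0 := by
        rw [Ne, leadingCoeff_eq_zero]
        rintro rfl
        simp at hf
      exact hx.mul_intCast h1
    · intro m
      rw [eval_mul, eval_C, eval_map, mul_comm]
      congr 1
      have := eval₂_at_intCast (p := f) (Int.castRingHom ℝ) (m : ℤ)
      rw [Int.cast_natCast] at this
      rw [this]
      rfl
  set B : Set ℕ := {m : ℕ | ∃ x ∈ X, ∃ g ∈ A, ¬ EDense ε g (f.eval (m : ℤ) * x)} with hB
  have hBs : Summable (B.indicator fun m : ℕ => 1 / (m : ℝ)) := by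
    apply summable_of_count B (#X * C) σ (by positivity) hσ1
    intro M hM
    have hsub : {m : ℕ | m < M ∧ m ∈ B} ⊆ ⋃ x ∈ X, {m : ℕ | m < M ∧ ∃ g ∈ A,
        ¬ EDense ε g ((Polynomial.C x * f.map (Int.castRingHom ℝ)).eval (m : ℝ))} := by
      rintro m ⟨hm, x, hx, g, hg, hgd⟩
      rw [Set.mem_iUnion₂]
      refine ⟨x, hx, hm, g, hg, ?_⟩
      rw [(hF x (hX x hx)).2.2 m]
      exact hgd
    have hfin : ∀ x : ℝ, {m : ℕ | m < M ∧ ∃ g ∈ A,
        ¬ EDense ε g ((Polynomial.C x * f.map (Int.castRingHom ℝ)).eval (m : ℝ))}.Finite := fun x =>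
      (Set.finite_lt_nat M).subset fun m hm => hm.1
    have h1 := (Set.ncard_le_ncard hsub (Set.Finite.biUnion X.finite_toSet fun x _ => hfin x)).trans
      (Finset.set_ncard_biUnion_le _ _)
    have h2 : (({m : ℕ | m < M ∧ m ∈ B}.ncard : ℕ) : ℝ) ≤ ∑ x ∈ X, (({m : ℕ | m < M ∧ ∃ g ∈ A,
        ¬ EDense ε g ((Polynomial.C x * f.map (Int.castRingHom ℝ)).eval (m : ℝ))}.ncard : ℕ) : ℝ) := by
      exact_mod_cast h1
    refine h2.trans ?_
    calc ∑ x ∈ X, (({m : ℕ | m < M ∧ ∃ g ∈ A,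
        ¬ EDense ε g ((Polynomial.C x * f.map (Int.castRingHom ℝ)).eval (m : ℝ))}.ncard : ℕ) : ℝ)
        ≤ ∑ x ∈ X, C * (M : ℝ) ^ σ := sum_le_sum fun x hx =>
          H _ (hF x (hX x hx)).1 (hF x (hX x hx)).2.1 M hM
      _ = #X * C * (M : ℝ) ^ σ := by rw [sum_const, nsmul_eq_mul]; ring
  intro hfin
  apply hS
  -- `S ⊆ good (finite) ∪ B`
  set Gd : Set ℕ := {m ∈ S | ∀ x ∈ X, ∀ g ∈ A, EDense ε g (f.eval (m : ℤ) * x)} with hGd
  have h1 : Summable (Gd.indicator fun m : ℕ => 1 / (m : ℝ)) :=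
    summable_of_hasFiniteSupport (hfin.subset (Set.support_indicator_subset))
  refine Summable.of_nonneg_of_le (fun m => Set.indicator_nonneg (fun _ _ => by positivity) m) (fun m => ?_) (h1.add hBs)
  by_cases hmS : m ∈ S
  · rw [Set.indicator_of_mem hmS]
    by_cases hmB : m ∈ B
    · rw [Set.indicator_of_mem hmB]
      have : 0 ≤ Gd.indicator (fun m : ℕ => 1 / (m : ℝ)) m := Set.indicator_nonneg (fun _ _ => by positivity) m
      linarith
    · have hG : m ∈ Gd := by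
        refine ⟨hmS, fun x hx g hg => ?_⟩
        by_contra hcon
        exact hmB ⟨x, hx, g, hg, hcon⟩
      rw [Set.indicator_of_mem hG]
      have : 0 ≤ B.indicator (fun m : ℕ => 1 / (m : ℝ)) m := Set.indicator_nonneg (fun _ _ => by positivity) m
      linarith
  · rw [Set.indicator_of_notMem hmS]
    have h2 : 0 ≤ Gd.indicator (fun m : ℕ => 1 / (m : ℝ)) m := Set.indicator_nonneg (fun _ _ => by positivity) m
    have h3 : 0 ≤ B.indicator (fun m : ℕ => 1 / (m : ℝ)) m := Set.indicator_nonneg (fun _ _ => by positivity) m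
    linarith

end Pool.Agent.U59.PM
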