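import Pool.Agent.R544.EM.Block

/-!
The number of the `m < M` for which few words of `k` digits stand infinitely often in `y m`, for
sequences `y` whose blocks of digits at arbitrarily far places are well distributed. (The case
`y m = x + m α` is in `Pool.Agent.R544.EM.Block`.)
-/

set_option autoImplicit false

namespace Pool.Agent.U59.PM

open Finset
open Pool.Agent.R544.EM (word often word_eq word_nonneg word_lt often_sub often_ev word_split)

/-- the `m` whose blocks are in a finite set -/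
lemma blocks_mem (b n M K : ℕ) (y : ℕ → ℝ) (q : ℕ)
    (h : ∀ (v : ℤ), {m : ℕ | m < M ∧ word b n (y m) q = v}.ncard ≤ K) (A : Finset ℤ) :
    {m : ℕ | m < M ∧ word b n (y m) q ∈ A}.ncard ≤ K * A.card := by
  classical
  have hsub : {m : ℕ | m < M ∧ word b n (y m) q ∈ A} ⊆
      ⋃ v ∈ A, {m : ℕ | m < M ∧ word b n (y m) q = v} := by
    rintro m ⟨hm, hA⟩
    rw [Set.mem_iUnion₂]
    exact ⟨_, hA, hm, rfl⟩
  have hfin : ∀ v : ℤ, {m : ℕ | m < M ∧ word b n (y m) q = v}.Finite := fun v =>
    (Set.finite_lt_nat M).subset fun m hm => hm.1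
  refine (Set.ncard_le_ncard hsub (Set.Finite.biUnion A.finite_toSet fun v _ => hfin v)).trans ?_
  refine (Finset.set_ncard_biUnion_le _ _).trans ?_
  refine (Finset.sum_le_card_nsmul _ _ _ fun v _ => h v).trans (le_of_eq ?_)
  rw [smul_eq_mul, mul_comm]

/-- **Few words.** -/
theorem few_words (b : ℕ) (hb : 2 ≤ b) (y : ℕ → ℝ) (M k l P K : ℕ) (hP : P ≤ b ^ k)
    (hblocks : ∀ q0 : ℕ, ∃ q, q0 ≤ q ∧ ∀ v : ℤ, {m : ℕ | m < M ∧ word b (k * l) (y m) q = v}.ncard ≤ K) :
    {m : ℕ | m < M ∧ (often b k (y m)).ncard ≤ P}.ncard ≤ K * (b ^ k).choose P * P ^ l := by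
  classical
  set E : Set ℕ := {m : ℕ | m < M ∧ (often b k (y m)).ncard ≤ P} with hE
  set I : Finset ℤ := Finset.Ico (0 : ℤ) ((b : ℤ) ^ k) with hI
  have hIcard : I.card = b ^ k := by
    rw [hI, Int.card_Ico, sub_zero]
    exact_mod_cast Int.toNat_natCast (b ^ k)
  -- a place from which on only frequent words stand
  have h1 : ∀ m : ℕ, ∃ i0, ∀ i ≥ i0, word b k (y m) i ∈ often b k (y m) := fun m =>
    often_ev b hb k _
  choose i0 hi0 using h1
  obtain ⟨q, hq, hblock⟩ := hblocks ((Finset.range M).sup i0)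
  have hq' : ∀ m < M, i0 m ≤ q := fun m hm =>
    (Finset.le_sup (Finset.mem_range.2 hm)).trans hq
  -- the blocks over the alphabet `W`
  have hset : ∀ (W : Finset ℤ) (l : ℕ), ∃ A : Finset ℤ, A.card ≤ W.card ^ l ∧ ∀ y : ℝ,
      (∀ i < l, word b k y (q + k * i) ∈ W) → word b (k * l) y q ∈ A := by
    intro W l
    induction l with
    | zero =>
      refine ⟨{0}, by simp, fun y _ => ?_⟩
      rw [Finset.mem_singleton, word, mul_zero, pow_zero, Int.emod_one]
    | succ l ih =>
      obtain ⟨A, hA, hAy⟩ := ih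
      refine ⟨(A ×ˢ W).image fun u => u.1 * (b : ℤ) ^ k + u.2, ?_, fun y hy => ?_⟩
      · refine Finset.card_image_le.trans ?_
        rw [Finset.card_product, pow_succ]
        exact Nat.mul_le_mul_right _ hA
      · rw [Finset.mem_image]
        refine ⟨(word b (k * l) y q, word b k y (q + k * l)), ?_, (word_split b hb k l y q).symm⟩
        rw [Finset.mem_product]
        exact ⟨hAy y fun i hi => hy i (by omega), hy l (by omega)⟩
  have hsub : E ⊆ ⋃ W ∈ Finset.powersetCard P I, {m : ℕ | m < M ∧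
      ∀ i < l, word b k (y m) (q + k * i) ∈ W} := by
    rintro m ⟨hm, hc⟩
    have hfin : (often b k (y m)).Finite := (Finset.finite_toSet I).subset (often_sub b hb k _)
    obtain ⟨W, hW1, hW2⟩ : ∃ W : Finset ℤ, hfin.toFinset ⊆ W ∧ W ∈ Finset.powersetCard P I := by
      have h2 : hfin.toFinset ⊆ I := by
        intro v hv
        rw [Set.Finite.mem_toFinset] at hv
        exact_mod_cast often_sub b hb k _ hv
      have h3 : hfin.toFinset.card ≤ P := by
        rw [← Set.ncard_eq_toFinset_card _ hfin]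
        exact hc
      obtain ⟨W, h4, h5, h6⟩ := Finset.exists_subsuperset_card_eq h2 h3 (by rw [hIcard]; exact hP)
      exact ⟨W, h4, Finset.mem_powersetCard.2 ⟨h5, h6⟩⟩
    rw [Set.mem_iUnion₂]
    refine ⟨W, hW2, hm, fun i _ => hW1 ?_⟩
    rw [Set.Finite.mem_toFinset]
    exact hi0 m _ ((hq' m hm).trans (Nat.le_add_right _ _))
  have hone : ∀ W ∈ Finset.powersetCard P I, {m : ℕ | m < M ∧
      ∀ i < l, word b k (y m) (q + k * i) ∈ W}.ncard ≤ K * P ^ l := by
    intro W hW
    obtain ⟨A, hA, hAy⟩ := hset W l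
    rw [Finset.mem_powersetCard] at hW
    rw [hW.2] at hA
    refine (Set.ncard_le_ncard (t := {m : ℕ | m < M ∧ word b (k * l) (y m) q ∈ A})
      (fun m hm => ⟨hm.1, hAy _ hm.2⟩) ((Set.finite_lt_nat _).subset fun m hm => hm.1)).trans ?_
    exact (blocks_mem b (k * l) M K y q hblock A).trans (Nat.mul_le_mul_left _ hA)
  have hfin : ∀ W : Finset ℤ, {m : ℕ | m < M ∧
      ∀ i < l, word b k (y m) (q + k * i) ∈ W}.Finite := fun W =>
    (Set.finite_lt_nat _).subset fun m hm => hm.1
  refine (Set.ncard_le_ncard hsub (Set.Finite.biUnion (Finset.finite_toSet _) fun W _ => hfin W)).trans ?_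
  refine (Finset.set_ncard_biUnion_le _ _).trans ?_
  refine (Finset.sum_le_card_nsmul _ _ _ hone).trans (le_of_eq ?_)
  rw [Finset.card_powersetCard, hIcard, smul_eq_mul]
  ring

end Pool.Agent.U59.PM
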